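import Mathlib

/-!
# Martin's axiom for `ℵ₁` dense sets and the splitting number

Under Martin's axiom for `ℵ₁` dense sets no family of at most `ℵ₁` sets of natural numbers is
splitting. The forcing notion is the one of the proof of `MA → 𝔭 > ℵ₁`, applied to a family of
members of an ultrafilter.
-/

set_option autoImplicit false

namespace Pool.Agent.H739.MASplit

open Set Cardinal

/-- The conditions: a finite set of natural numbers and a finite set of indices. -/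
def Cnd (ι : Type) (_T : ι → Set ℕ) : Type := Finset ℕ × Finset ι

variable {ι : Type} {T : ι → Set ℕ}

instance : Preorder (Cnd ι T) where
  le q p := p.1 ⊆ q.1 ∧ p.2 ⊆ q.2 ∧ ∀ n ∈ q.1, n ∉ p.1 → ∀ i ∈ p.2, n ∈ T i
  le_refl p := ⟨Finset.Subset.refl _, Finset.Subset.refl _, fun n h1 h2 => absurd h1 h2⟩
  le_trans r q p h1 h2 := by
    refine ⟨h2.1.trans h1.1, h2.2.1.trans h1.2.1, fun n hn hn' i hi => ?_⟩
    by_cases h : n ∈ q.1
    · exact h2.2.2 n h hn' i hi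
    · exact h1.2.2 n hn h i (h2.2.1 hi)

theorem le_def {q p : Cnd ι T} :
    q ≤ p ↔ p.1 ⊆ q.1 ∧ p.2 ⊆ q.2 ∧ ∀ n ∈ q.1, n ∉ p.1 → ∀ i ∈ p.2, n ∈ T i := Iff.rfl

instance : Nonempty (Cnd ι T) := ⟨((∅ : Finset ℕ), (∅ : Finset ι))⟩

theorem ccc (A : Set (Cnd ι T)) (hA : ∀ p ∈ A, ∀ q ∈ A, p ≠ q → ¬ ∃ r, r ≤ p ∧ r ≤ q) :
    A.Countable := by
  classical
  have h1 : Set.InjOn (fun p : Cnd ι T => p.1) A := by
    intro p hp q hq hpq
    by_contra hne
    refine hA p hp q hq hne ⟨(p.1, p.2 ∪ q.2), ?_, ?_⟩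
    · exact ⟨Finset.Subset.refl _, Finset.subset_union_left, fun n h1 h2 => absurd h1 h2⟩
    · have hpq' : p.1 = q.1 := hpq
      refine ⟨?_, Finset.subset_union_right, fun n h1 h2 => ?_⟩
      · change q.1 ⊆ p.1
        rw [hpq']
      · change n ∈ p.1 at h1
        rw [hpq'] at h1
        exact absurd h1 h2
  exact Set.countable_of_injective_of_countable_image h1 (Set.to_countable _)

/-- No family of at most `ℵ₁` sets is splitting. -/
theorem no_small_splitting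
    (hMA : ∀ (P : Type) (_ : Preorder P), Nonempty P →
      (∀ A : Set P, (∀ p ∈ A, ∀ q ∈ A, p ≠ q → ¬ ∃ r, r ≤ p ∧ r ≤ q) → A.Countable) →
      ∀ 𝒟 : Set (Set P), Cardinal.mk 𝒟 ≤ Cardinal.aleph 1 →
        (∀ D ∈ 𝒟, ∀ p, ∃ q ∈ D, q ≤ p) →
        ∃ G : Set P, G.Nonempty ∧ (∀ p ∈ G, ∀ q, p ≤ q → q ∈ G) ∧
          (∀ p ∈ G, ∀ q ∈ G, ∃ r ∈ G, r ≤ p ∧ r ≤ q) ∧ ∀ D ∈ 𝒟, (D ∩ G).Nonempty)
    (𝒮 : Set (Set ℕ)) (h𝒮 : #𝒮 ≤ ℵ₁) :
    ∃ I : Set ℕ, I.Infinite ∧ ∀ S ∈ 𝒮, (I ∩ S).Finite ∨ (I \ S).Finite := by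
  classical
  let U : Ultrafilter ℕ := Filter.hyperfilter ℕ
  let T : 𝒮 → Set ℕ := fun S => if (S : Set ℕ) ∈ U then (S : Set ℕ) else (S : Set ℕ)ᶜ
  have hT : ∀ S : 𝒮, T S ∈ U := by
    intro S
    by_cases h : (S : Set ℕ) ∈ U
    · simp only [T, h, if_true]
    · simp only [T, h, if_false]
      exact Ultrafilter.compl_mem_iff_notMem.2 h
  have hinf : ∀ V ∈ U, V.Infinite := by
    intro V hV hf
    exact Filter.notMem_hyperfilter_of_finite hf hV
  let D : 𝒮 → Set (Cnd 𝒮 T) := fun S => {p | S ∈ p.2}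
  let E : ℕ → Set (Cnd 𝒮 T) := fun n => {p | ∃ m ∈ p.1, n ≤ m}
  obtain ⟨G, -, -, hG, hD⟩ := hMA (Cnd 𝒮 T) inferInstance inferInstance ccc (range D ∪ range E)
    (by
      refine (mk_union_le _ _).trans ?_
      refine (add_le_add (mk_range_le.trans h𝒮)
        ((mk_range_le.trans (by rw [mk_nat])).trans (aleph0_le_aleph 1))).trans ?_
      rw [add_eq_self (aleph0_le_aleph 1)])
    (by
      rintro _ (⟨S, rfl⟩ | ⟨n, rfl⟩) p
      · refine ⟨(p.1, insert S p.2), Finset.mem_insert_self _ _, Finset.Subset.refl _,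
          Finset.subset_insert _ _, fun n h1 h2 => absurd h1 h2⟩
      · have h1 : (⋂ i ∈ p.2, T i) ∈ U :=
          (Filter.biInter_finset_mem p.2).2 fun i _ => hT i
        obtain ⟨m, hm, hm'⟩ := (hinf _ h1).exists_gt n
        refine ⟨(insert m p.1, p.2), ⟨m, Finset.mem_insert_self _ _, hm'.le⟩,
          Finset.subset_insert _ _, Finset.Subset.refl _, fun k h2 h3 i hi => ?_⟩
        rcases Finset.mem_insert.1 h2 with rfl | h2
        · exact Set.mem_iInter₂.1 hm i hi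
        · exact absurd h2 h3)
  refine ⟨{n | ∃ p ∈ G, n ∈ p.1}, ?_, fun S hS => ?_⟩
  · refine Set.infinite_of_not_bddAbove ?_
    rintro ⟨b, hb⟩
    obtain ⟨p, ⟨m, hm, hm'⟩, hp⟩ := hD (E (b + 1)) (Or.inr ⟨b + 1, rfl⟩)
    have := hb (show m ∈ {n | ∃ p ∈ G, n ∈ p.1} from ⟨p, hp, hm⟩)
    omega
  · obtain ⟨p, hpS, hp⟩ := hD (D ⟨S, hS⟩) (Or.inl ⟨_, rfl⟩)
    have key : {n | ∃ p ∈ G, n ∈ p.1} \ T ⟨S, hS⟩ ⊆ (p.1 : Set ℕ) := by
      rintro n ⟨⟨q, hq, hn⟩, hn'⟩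
      obtain ⟨r, -, hr, hr'⟩ := hG p hp q hq
      by_contra h
      exact hn' (hr.2.2 n (hr'.1 hn) h _ hpS)
    have hfin := (Finset.finite_toSet p.1).subset key
    by_cases h : S ∈ U
    · right
      simpa only [T, h, if_true] using hfin
    · left
      simp only [T, h, if_false] at hfin
      rwa [Set.diff_compl] at hfin

end Pool.Agent.H739.MASplit
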